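import Mathlib

set_option autoImplicit false

namespace Pool.Agent.P.MP_18ddbc_gt

open Set Topology Filter

/-- A component of a closed set in a compact Hausdorff space meets `B` as soon as every
relatively clopen piece containing the point does. -/
theorem comp_meets {X : Type*} [TopologicalSpace X] [CompactSpace X] [T2Space X]
    {A B : Set X} (hA : IsClosed A) (hB : IsClosed B) {x : X} (hx : x ∈ A)
    (H : ∀ U V : Set X, IsOpen U → IsOpen V → Disjoint U V → A ⊆ U ∪ V → x ∈ U →
      (A ∩ U ∩ B).Nonempty) :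
    (connectedComponentIn A x ∩ B).Nonempty := by
  have : CompactSpace A := isCompact_iff_compactSpace.mp hA.isCompact
  let ι := { s : Set A // IsClopen s ∧ (⟨x, hx⟩ : A) ∈ s }
  have : Nonempty ι := ⟨⟨univ, isClopen_univ, mem_univ _⟩⟩
  have hBc : IsClosed ((↑) ⁻¹' B : Set A) := hB.preimage continuous_subtype_val
  have key : (⋂ s : ι, (s.1 ∩ (↑) ⁻¹' B)).Nonempty := by
    apply IsCompact.nonempty_iInter_of_directed_nonempty_isCompact_isClosed
    · intro s t
      refine ⟨⟨s.1 ∩ t.1, s.2.1.inter t.2.1, s.2.2, t.2.2⟩, ?_, ?_⟩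
      · exact inter_subset_inter_left _ inter_subset_left
      · exact inter_subset_inter_left _ inter_subset_right
    · intro s
      have h1 : IsCompact ((↑) '' s.1 : Set X) :=
        s.2.1.isClosed.isCompact.image continuous_subtype_val
      have h2 : IsCompact ((↑) '' s.1ᶜ : Set X) :=
        s.2.1.compl.isClosed.isCompact.image continuous_subtype_val
      have h3 : Disjoint ((↑) '' s.1 : Set X) ((↑) '' s.1ᶜ) :=
        (disjoint_image_iff Subtype.val_injective).mpr disjoint_compl_right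
      obtain ⟨U, V, hU, hV, hsU, hsV, hUV⟩ := SeparatedNhds.of_isCompact_isCompact h1 h2 h3
      obtain ⟨z, ⟨hzA, hzU⟩, hzB⟩ := H U V hU hV hUV (by
        intro a ha
        by_cases h : (⟨a, ha⟩ : A) ∈ s.1
        · exact Or.inl (hsU ⟨_, h, rfl⟩)
        · exact Or.inr (hsV ⟨_, h, rfl⟩)) (hsU ⟨_, s.2.2, rfl⟩)
      refine ⟨⟨z, hzA⟩, ?_, hzB⟩
      by_contra h
      exact (disjoint_left.mp hUV) hzU (hsV ⟨_, h, rfl⟩)
    · intro s
      exact (s.2.1.isClosed.inter hBc).isCompact
    · intro s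
      exact s.2.1.isClosed.inter hBc
  obtain ⟨z, hz⟩ := key
  rw [mem_iInter] at hz
  refine ⟨z.1, ?_, (hz (Classical.arbitrary ι)).2⟩
  rw [connectedComponentIn_eq_image hx, connectedComponent_eq_iInter_isClopen]
  exact ⟨z, mem_iInter.mpr fun s => (hz s).1, rfl⟩

/-- Whyburn: continuous open maps of compact Hausdorff spaces are confluent. -/
theorem whyburn {X Y : Type*} [TopologicalSpace X] [CompactSpace X] [T2Space X]
    [TopologicalSpace Y] [T2Space Y] {G : X → Y} (hG : Continuous G) (hGo : IsOpenMap G)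
    {K : Set Y} (hK : IsClosed K) (hKc : IsPreconnected K) {x : X} (hx : G x ∈ K)
    {y : Y} (hy : y ∈ K) : ∃ z ∈ connectedComponentIn (G ⁻¹' K) x, G z = y := by
  obtain ⟨z, hz1, hz2⟩ := comp_meets (A := G ⁻¹' K) (B := G ⁻¹' {y}) (hK.preimage hG)
    (isClosed_singleton.preimage hG) hx (by
      intro U V hU hV hUV hA hxU
      have hZ : IsClosed (G ⁻¹' K ∩ Vᶜ) := (hK.preimage hG).inter hV.isClosed_compl
      have hGZ : IsClosed (G '' (G ⁻¹' K ∩ Vᶜ)) := (hZ.isCompact.image hG).isClosed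
      by_contra hne
      have hyZ : y ∉ G '' (G ⁻¹' K ∩ Vᶜ) := by
        rintro ⟨w, ⟨hw1, hw2⟩, hw3⟩
        exact hne ⟨w, ⟨hw1, (hA hw1).resolve_right hw2⟩, hw3⟩
      obtain ⟨k, hkK, ⟨u, huU, rfl⟩, hk⟩ := hKc (G '' U) (G '' (G ⁻¹' K ∩ Vᶜ))ᶜ (hGo U hU)
        hGZ.isOpen_compl (by
          intro k _
          by_cases h : k ∈ G '' (G ⁻¹' K ∩ Vᶜ)
          · obtain ⟨w, ⟨hw1, hw2⟩, rfl⟩ := h
            exact Or.inl ⟨w, (hA hw1).resolve_right hw2, rfl⟩
          · exact Or.inr h) ⟨G x, hx, x, hxU, rfl⟩ ⟨y, hy, hyZ⟩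
      exact hk ⟨u, ⟨hkK, disjoint_left.mp hUV huU⟩, rfl⟩)
  exact ⟨z, hz1, hz2⟩

/-- Passing to the limit in a decreasing sequence of closed sets. -/
theorem nested {X : Type*} [TopologicalSpace X] [CompactSpace X] [T2Space X]
    {A B : ℕ → Set X} (hA : ∀ n, IsClosed (A n)) (hB : ∀ n, IsClosed (B n))
    (hAm : Antitone A) (hBm : Antitone B) {x : X}
    (H : ∀ n, ∃ C : Set X, IsPreconnected C ∧ x ∈ C ∧ C ⊆ A n ∧ (C ∩ B n).Nonempty) :
    (connectedComponentIn (⋂ n, A n) x ∩ ⋂ n, B n).Nonempty := by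
  have hx : x ∈ ⋂ n, A n := mem_iInter.mpr fun n => by
    obtain ⟨C, -, h1, h2, -⟩ := H n
    exact h2 h1
  refine comp_meets (isClosed_iInter hA) (isClosed_iInter hB) hx ?_
  intro U V hU hV hUV hsub hxU
  obtain ⟨N, hN⟩ := exists_subset_nhds_of_isCompact hAm.directed_ge
    (fun n => (hA n).isCompact) (U := U ∪ V) (fun z hz => (hU.union hV).mem_nhds (hsub hz))
  have hcl : ∀ n, IsClosed (A n ∩ Vᶜ ∩ B n) := fun n =>
    ((hA n).inter hV.isClosed_compl).inter (hB n)
  obtain ⟨z, hz⟩ := IsCompact.nonempty_iInter_of_sequence_nonempty_isCompact_isClosed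
    (fun n => A n ∩ Vᶜ ∩ B n)
    (fun n => inter_subset_inter (inter_subset_inter_left _ (hAm (Nat.le_succ n)))
      (hBm (Nat.le_succ n)))
    (fun n => by
      obtain ⟨C, hC, hxC, hCA, w, hwC, hwB⟩ := H (max n N)
      have hCU : C ⊆ U := hC.subset_left_of_subset_union hU hV hUV
        (hCA.trans ((hAm (le_max_right n N)).trans hN)) ⟨x, hxC, hxU⟩
      exact ⟨w, ⟨hAm (le_max_left n N) (hCA hwC), disjoint_left.mp hUV (hCU hwC)⟩,
        hBm (le_max_left n N) hwB⟩)
    (hcl 0).isCompact hcl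
  rw [mem_iInter] at hz
  have hzA : z ∈ ⋂ n, A n := mem_iInter.mpr fun n => (hz n).1.1
  exact ⟨z, ⟨hzA, (hsub hzA).resolve_right (hz 0).1.2⟩, mem_iInter.mpr fun n => (hz n).2⟩

/-! ### Inverse limits of arcs -/

/-- the inverse limit -/
abbrev IL (g : ℕ → unitInterval → unitInterval) : Type :=
  {x : ℕ → unitInterval // ∀ k, x k = g k (x (k + 1))}

variable {g : ℕ → unitInterval → unitInterval}

theorem continuous_proj (i : ℕ) : Continuous fun x : IL g => x.1 i :=
  (continuous_apply i).comp continuous_subtype_val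

theorem compactSpace_IL (hg : ∀ k, Continuous (g k)) : CompactSpace (IL g) := by
  have : IsClosed {x : ℕ → unitInterval | ∀ k, x k = g k (x (k + 1))} := by
    rw [ofPred_forall]
    exact isClosed_iInter fun k =>
      isClosed_eq (continuous_apply k) ((hg k).comp (continuous_apply (k + 1)))
  exact isCompact_iff_compactSpace.mp this.isCompact

theorem proj_eq_of_le {x z : IL g} {i k : ℕ} (hik : i ≤ k) (h : z.1 k = x.1 k) :
    z.1 i = x.1 i := by
  induction k, hik using Nat.le_induction with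
  | base => exact h
  | succ k _ ih => exact ih (by rw [z.2 k, x.2 k, h])

theorem surj_of_open {G : unitInterval → unitInterval} (hG : Continuous G) (hGo : IsOpenMap G) :
    Function.Surjective G := by
  rw [← range_eq_univ]
  exact IsClopen.eq_univ ⟨(isCompact_range hG).isClosed, hGo.isOpen_range⟩ (range_nonempty G)

theorem proj_surj (k : ℕ) : ∀ (g : ℕ → unitInterval → unitInterval),
    (∀ k, Function.Surjective (g k)) → ∀ t, ∃ x : IL g, x.1 k = t := by
  induction k with
  | zero =>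
    intro g hg t
    choose s hs using hg
    let w : ℕ → unitInterval := fun n => Nat.rec t (fun n a => s n a) n
    exact ⟨⟨w, fun n => (hs n (w n)).symm⟩, rfl⟩
  | succ k ih =>
    intro g hg t
    obtain ⟨x, hx⟩ := ih (fun n => g (n + 1)) (fun n => hg (n + 1)) t
    refine ⟨⟨fun n => Nat.casesOn n (g 0 (x.1 0)) x.1, ?_⟩, hx⟩
    intro n
    cases n with
    | zero => rfl
    | succ n => exact x.2 n

theorem exists_proj_notMem (hg : ∀ k, Continuous (g k)) {K : Set (IL g)} (hK : IsClosed K)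
    {x : IL g} (hx : x ∉ K) : ∃ N, ∀ k, N ≤ k → x.1 k ∉ (fun z : IL g => z.1 k) '' K := by
  have := compactSpace_IL hg
  by_contra hcon
  push Not at hcon
  have hcl : ∀ k, IsClosed (K ∩ {z : IL g | z.1 k = x.1 k}) := fun k =>
    hK.inter (isClosed_eq (continuous_proj k) continuous_const)
  obtain ⟨z, hz⟩ := IsCompact.nonempty_iInter_of_sequence_nonempty_isCompact_isClosed
    (fun k => K ∩ {z : IL g | z.1 k = x.1 k})
    (fun k => inter_subset_inter_right _ fun z hz => proj_eq_of_le (Nat.le_succ k) hz)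
    (fun k => by
      obtain ⟨m, hm, w, hwK, hw⟩ := hcon k
      exact ⟨w, hwK, proj_eq_of_le hm hw⟩)
    (hcl 0).isCompact hcl
  rw [mem_iInter] at hz
  have : z = x := Subtype.ext (funext fun k => (hz k).2)
  exact hx (this ▸ (hz 0).1)

theorem isOpenMap_proj (hg : ∀ k, Continuous (g k) ∧ IsOpenMap (g k)) (i : ℕ) :
    IsOpenMap fun x : IL g => x.1 i := by
  have := compactSpace_IL fun k => (hg k).1
  intro W hW
  rw [isOpen_iff_mem_nhds]
  rintro _ ⟨x, hxW, rfl⟩
  have hstep : ∀ k, (fun z : IL g => z.1 (k + 1)) '' W ∈ 𝓝 (x.1 (k + 1)) →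
      (fun z : IL g => z.1 k) '' W ∈ 𝓝 (x.1 k) := by
    intro k h
    have h1 := (hg k).2.image_mem_nhds h
    rw [← x.2 k, image_image] at h1
    rwa [show (fun z : IL g => z.1 k) = fun z : IL g => g k (z.1 (k + 1)) from
      funext fun z => z.2 k]
  have hdown : ∀ d k, (fun z : IL g => z.1 (k + d)) '' W ∈ 𝓝 (x.1 (k + d)) →
      (fun z : IL g => z.1 k) '' W ∈ 𝓝 (x.1 k) := by
    intro d
    induction d with
    | zero => intro k h; exact h
    | succ d ih => intro k h; exact ih k (hstep (k + d) h)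
  obtain ⟨N, hN⟩ := exists_proj_notMem (fun k => (hg k).1) hW.isClosed_compl
    (show x ∉ Wᶜ from fun h => h hxW)
  apply hdown N i
  have hcl : IsClosed ((fun z : IL g => z.1 (i + N)) '' Wᶜ) :=
    (hW.isClosed_compl.isCompact.image (continuous_proj _)).isClosed
  refine mem_of_superset (hcl.isOpen_compl.mem_nhds (hN (i + N) (Nat.le_add_left N i))) ?_
  intro t ht
  obtain ⟨z, hz⟩ := proj_surj (i + N) g (fun k => surj_of_open (hg k).1 (hg k).2) t
  refine ⟨z, ?_, hz⟩
  by_contra h
  exact ht ⟨z, h, hz⟩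

/-- a continuous real function on the inverse limit almost factors through a projection -/
theorem almost_factor (hg : ∀ k, Continuous (g k)) {φ : IL g → ℝ} (hφ : Continuous φ)
    {e : ℝ} (he : 0 < e) : ∃ N, ∀ i, N ≤ i → ∃ δ > 0, ∀ x z : IL g,
      |(x.1 i : ℝ) - z.1 i| ≤ δ → |φ x - φ z| ≤ e := by
  have := compactSpace_IL hg
  set D : Set (IL g × IL g) := {w | e ≤ |φ w.1 - φ w.2|} with hD
  have hDc : IsClosed D := isClosed_le continuous_const (by fun_prop)
  have h1 : ∃ N, ∀ w ∈ D, w.1.1 N ≠ w.2.1 N := by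
    by_contra hcon
    push Not at hcon
    have hcl : ∀ k, IsClosed (D ∩ {w : IL g × IL g | w.1.1 k = w.2.1 k}) := fun k =>
      hDc.inter (isClosed_eq ((continuous_proj k).comp continuous_fst)
        ((continuous_proj k).comp continuous_snd))
    obtain ⟨w, hw⟩ := IsCompact.nonempty_iInter_of_sequence_nonempty_isCompact_isClosed
      (fun k => D ∩ {w : IL g × IL g | w.1.1 k = w.2.1 k})
      (fun k => inter_subset_inter_right _ fun z hz => proj_eq_of_le (Nat.le_succ k) hz)
      (fun k => by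
        obtain ⟨w, hw1, hw2⟩ := hcon k
        exact ⟨w, hw1, hw2⟩)
      (hcl 0).isCompact hcl
    rw [mem_iInter] at hw
    have h2 : w.1 = w.2 := Subtype.ext (funext fun k => (hw k).2)
    have h3 : e ≤ |φ w.1 - φ w.2| := (hw 0).1
    rw [h2, sub_self, abs_zero] at h3
    linarith
  obtain ⟨N, hN⟩ := h1
  refine ⟨N, fun i hi => ?_⟩
  have hF : Continuous fun w : IL g × IL g => |(w.1.1 i : ℝ) - w.2.1 i| :=
    ((continuous_subtype_val.comp ((continuous_proj i).comp continuous_fst)).sub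
      (continuous_subtype_val.comp ((continuous_proj i).comp continuous_snd))).abs
  obtain ⟨δ, hδ, hδ'⟩ := hDc.isCompact.exists_forall_le' hF.continuousOn (a := 0) (by
    intro w hw
    rw [abs_pos, sub_ne_zero]
    intro h
    exact hN w hw (proj_eq_of_le hi (Subtype.ext h)))
  refine ⟨δ / 2, half_pos hδ, fun x z hxz => ?_⟩
  by_contra h
  have := hδ' (x, z) (not_le.mp h).le
  simp only at this
  linarith

end Pool.Agent.P.MP_18ddbc_gt
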