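import Mathlib

set_option autoImplicit false

namespace Pool.Agent.P.MP_18ddbc_gt

open Set Topology Filter

/-- orientation of the lap number `l` -/
noncomputable def ori (l : ℕ) (u : ℝ) : ℝ := if Even l then u else 1 - u

theorem ori_succ (l : ℕ) (u : ℝ) : ori (l + 1) u = 1 - ori l u := by
  unfold ori
  by_cases h : Even l
  · rw [if_neg (by simpa [Nat.even_add_one] using h), if_pos h]
  · rw [if_pos (by simpa [Nat.even_add_one] using h), if_neg h]; ring

theorem ori_ori (l : ℕ) (u : ℝ) : ori l (ori l u) = u := by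
  unfold ori
  split_ifs <;> ring

theorem abs_ori_sub (l : ℕ) (u v : ℝ) : |ori l u - ori l v| = |u - v| := by
  unfold ori
  split_ifs
  · rfl
  · rw [abs_sub_comm]; congr 1; ring

theorem ori_mem (l : ℕ) {u : ℝ} (h : u ∈ Icc (0 : ℝ) 1) : ori l u ∈ Icc (0 : ℝ) 1 := by
  unfold ori
  split_ifs
  · exact h
  · exact ⟨by linarith [h.2], by linarith [h.1]⟩

theorem continuous_ori (l : ℕ) : Continuous (ori l) := by
  unfold ori
  split_ifs
  · exact continuous_id
  · fun_prop

/-- the triangle wave: distance to the even integers -/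
noncomputable def wave (t : ℝ) : ℝ := |t - 2 * (round (t / 2) : ℝ)|

theorem wave_le (t : ℝ) (z : ℤ) : wave t ≤ |t - 2 * (z : ℝ)| := by
  have h := round_le (t / 2) z
  have e1 : t - 2 * (round (t / 2) : ℝ) = 2 * (t / 2 - round (t / 2)) := by ring
  have e2 : t - 2 * (z : ℝ) = 2 * (t / 2 - z) := by ring
  rw [wave, e1, e2, abs_mul, abs_mul]
  exact mul_le_mul_of_nonneg_left h (abs_nonneg _)

theorem wave_lip (s t : ℝ) : |wave s - wave t| ≤ |s - t| := by
  have key : ∀ s t : ℝ, wave s ≤ |s - t| + wave t := by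
    intro s t
    refine (wave_le s (round (t / 2))).trans ?_
    rw [wave]
    exact abs_sub_le _ _ _
  have h1 := key s t
  have h2 := key t s
  rw [abs_sub_comm t s] at h2
  rw [abs_le]
  constructor <;> linarith

theorem continuous_wave : Continuous wave := by
  refine (LipschitzWith.of_dist_le_mul (K := 1) fun s t => ?_).continuous
  rw [Real.dist_eq, Real.dist_eq, NNReal.coe_one, one_mul]
  exact wave_lip s t

theorem wave_lap (l : ℕ) {u : ℝ} (h : u ∈ Icc (0 : ℝ) 1) : wave (l + u) = ori l u := by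
  obtain ⟨h0, h1⟩ := h
  unfold ori
  split_ifs with hl
  · obtain ⟨m, rfl⟩ := hl
    apply le_antisymm
    · refine (wave_le _ (m : ℤ)).trans (le_of_eq ?_)
      push_cast
      rw [show (m : ℝ) + m + u - 2 * m = u by ring, abs_of_nonneg h0]
    · rw [wave]
      set z := round ((((m + m : ℕ) : ℝ) + u) / 2)
      push_cast
      rcases le_or_gt z m with hz | hz
      · have : (z : ℝ) ≤ m := by exact_mod_cast hz
        exact le_trans (by linarith) (le_abs_self _)
      · have : (m : ℝ) + 1 ≤ z := by exact_mod_cast hz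
        exact le_trans (by linarith) (neg_le_abs _)
  · obtain ⟨m, rfl⟩ := Nat.not_even_iff_odd.mp hl
    apply le_antisymm
    · refine (wave_le _ ((m : ℤ) + 1)).trans (le_of_eq ?_)
      push_cast
      rw [show 2 * (m : ℝ) + 1 + u - 2 * (m + 1) = -(1 - u) by ring, abs_neg,
        abs_of_nonneg (by linarith)]
    · rw [wave]
      set z := round ((((2 * m + 1 : ℕ) : ℝ) + u) / 2)
      push_cast
      rcases le_or_gt z m with hz | hz
      · have : (z : ℝ) ≤ m := by exact_mod_cast hz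
        exact le_trans (by linarith) (le_abs_self _)
      · have : (m : ℝ) + 1 ≤ z := by exact_mod_cast hz
        exact le_trans (by linarith) (neg_le_abs _)

theorem wave_mem (t : ℝ) : wave t ∈ Icc (0 : ℝ) 1 := by
  refine ⟨abs_nonneg _, ?_⟩
  have h := abs_sub_round (t / 2)
  have e1 : t - 2 * (round (t / 2) : ℝ) = 2 * (t / 2 - round (t / 2)) := by ring
  rw [wave, e1, abs_mul, abs_two]
  linarith

/-- Discrete lifting of an approximate zigzag to a monotone phase. -/
theorem zig_inv (y : ℕ → ℝ) (M l0 : ℕ) (e : ℝ) (he : 0 < e)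
    (hy : ∀ s ≤ M, y s ∈ Icc (0 : ℝ) 1)
    (hstep : ∀ s < M, |y (s + 1) - y s| ≤ e)
    (hZ : ∀ l a b c : ℕ, a ≤ b → b ≤ c → c ≤ M → ori l (y a) + e < ori l (y b) →
      ori l (y c) + e < ori l (y b) → ∃ s, a ≤ s ∧ s ≤ c ∧ 1 - e ≤ ori l (y s))
    (h0 : ori l0 (y 0) ≤ e) :
    ∀ r ≤ M, ∃ (θ : ℕ → ℝ) (l s0 s1 : ℕ), l0 ≤ l ∧ s0 ≤ s1 ∧ s1 ≤ r ∧ ori l (y s0) ≤ e ∧
      (∀ s, s0 ≤ s → s ≤ r → ori l (y s) ≤ ori l (y s1)) ∧
      (∀ s, s1 ≤ s → s ≤ r → ori l (y s1) - 2 * e ≤ ori l (y s)) ∧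
      θ r = l + ori l (y s1) ∧ θ 0 = l0 + ori l0 (y 0) ∧
      (∀ s < r, θ s ≤ θ (s + 1) ∧ θ (s + 1) ≤ θ s + 5 * e) ∧
      (∀ s ≤ r, |wave (θ s) - y s| ≤ 2 * e) := by
  intro r
  induction r with
  | zero =>
    intro _
    refine ⟨fun _ => l0 + ori l0 (y 0), l0, 0, 0, le_rfl, le_rfl, le_rfl, h0, ?_, ?_, rfl, rfl,
      ?_, ?_⟩
    · intro s _ hs
      rw [Nat.le_zero.mp hs]
    · intro s _ hs
      rw [Nat.le_zero.mp hs]; linarith
    · intro s hs
      exact absurd hs (Nat.not_lt_zero s)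
    · intro s hs
      rw [Nat.le_zero.mp hs, wave_lap l0 (ori_mem l0 (hy 0 (Nat.zero_le M))), ori_ori, sub_self,
        abs_zero]
      linarith
  | succ r ih =>
    intro hr
    obtain ⟨θ, l, s0, s1, hl, h01, h1r, hs0, hmax, hmin, hθr, hθ0, hθs, hθw⟩ :=
      ih (Nat.le_of_succ_le hr)
    have hv := ori_mem l (hy (r + 1) hr)
    have hm := ori_mem l (hy s1 (by omega))
    have hvr : |ori l (y (r + 1)) - ori l (y r)| ≤ e := by
      rw [abs_ori_sub]; exact hstep r hr
    rw [abs_le] at hvr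
    have hrm := hmax r (by omega) le_rfl
    have hrm' := hmin r h1r le_rfl
    -- extension of the phase by a new value
    have ext : ∀ val : ℝ, θ r ≤ val → val ≤ θ r + 5 * e → |wave val - y (r + 1)| ≤ 2 * e →
        ∃ θ' : ℕ → ℝ, θ' (r + 1) = val ∧ θ' 0 = l0 + ori l0 (y 0) ∧
          (∀ s < r + 1, θ' s ≤ θ' (s + 1) ∧ θ' (s + 1) ≤ θ' s + 5 * e) ∧
          (∀ s ≤ r + 1, |wave (θ' s) - y s| ≤ 2 * e) := by
      intro val h1 h2 h3
      refine ⟨fun s => if s ≤ r then θ s else val, by simp, by simpa using hθ0, ?_, ?_⟩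
      · intro s hs
        by_cases h : s + 1 ≤ r
        · simp only [if_pos h, if_pos (Nat.le_of_succ_le h)]
          exact hθs s h
        · have : s = r := by omega
          subst this
          simp only [if_neg h, if_pos (le_refl s)]
          exact ⟨h1, h2⟩
      · intro s hs
        by_cases h : s ≤ r
        · simp only [if_pos h]; exact hθw s h
        · have : s = r + 1 := by omega
          subst this
          simp only [if_neg h]; exact h3
    rcases le_or_gt (ori l (y s1)) (ori l (y (r + 1))) with hA | hA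
    · obtain ⟨θ', e1, e2, e3, e4⟩ := ext (l + ori l (y (r + 1))) (by linarith) (by linarith) (by
        rw [wave_lap l hv, ori_ori, sub_self, abs_zero]; linarith)
      refine ⟨θ', l, s0, r + 1, hl, by omega, le_rfl, hs0, ?_, ?_, e1, e2, e3, e4⟩
      · intro s h1 h2
        rcases Nat.lt_or_ge s (r + 1) with h | h
        · exact (hmax s h1 (by omega)).trans hA
        · rw [show s = r + 1 by omega]
      · intro s h1 h2
        rw [show s = r + 1 by omega]; linarith
    rcases le_or_gt (ori l (y s1) - 2 * e) (ori l (y (r + 1))) with hB | hB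
    · obtain ⟨θ', e1, e2, e3, e4⟩ := ext (l + ori l (y s1)) (by linarith) (by linarith) (by
        rw [wave_lap l hm, ori_ori, ← abs_ori_sub l, abs_le]
        constructor <;> linarith)
      refine ⟨θ', l, s0, s1, hl, h01, by omega, hs0, ?_, ?_, e1, e2, e3, e4⟩
      · intro s h1 h2
        rcases Nat.lt_or_ge s (r + 1) with h | h
        · exact hmax s h1 (by omega)
        · rw [show s = r + 1 by omega]; exact hA.le
      · intro s h1 h2
        rcases Nat.lt_or_ge s (r + 1) with h | h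
        · exact hmin s h1 (by omega)
        · rw [show s = r + 1 by omega]; exact hB
    · obtain ⟨s, hs1, hs2, hs3⟩ := hZ l s0 s1 (r + 1) h01 (by omega) hr (by linarith [hv.1])
        (by linarith)
      have hm1 : 1 - e ≤ ori l (y s1) := by
        rcases Nat.lt_or_ge s (r + 1) with h | h
        · exact hs3.trans (hmax s hs1 (by omega))
        · rw [show s = r + 1 by omega] at hs3
          linarith [hm.2]
      have hv' := ori_mem (l + 1) (hy (r + 1) hr)
      obtain ⟨θ', e1, e2, e3, e4⟩ := ext ((l + 1 : ℕ) + ori (l + 1) (y (r + 1)))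
        (by rw [ori_succ]; push_cast; linarith [hv.2, hm.2])
        (by rw [ori_succ]; push_cast; linarith)
        (by rw [wave_lap (l + 1) hv', ori_ori, sub_self, abs_zero]; linarith)
      refine ⟨θ', l + 1, s1, r + 1, by omega, by omega, le_rfl, ?_, ?_, ?_, e1, e2, e3, e4⟩
      · rw [ori_succ]; linarith
      · intro s h1 h2
        rcases Nat.lt_or_ge s (r + 1) with h | h
        · have := hmin s h1 (by omega)
          rw [ori_succ, ori_succ]; linarith
        · rw [show s = r + 1 by omega]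
      · intro s h1 h2
        rw [show s = r + 1 by omega]; linarith

theorem zig (y : ℕ → ℝ) (M l0 : ℕ) (e : ℝ) (he : 0 < e) (he6 : 6 * e < 1)
    (hy : ∀ s ≤ M, y s ∈ Icc (0 : ℝ) 1)
    (hstep : ∀ s < M, |y (s + 1) - y s| ≤ e)
    (hZ : ∀ l a b c : ℕ, a ≤ b → b ≤ c → c ≤ M → ori l (y a) + e < ori l (y b) →
      ori l (y c) + e < ori l (y b) → ∃ s, a ≤ s ∧ s ≤ c ∧ 1 - e ≤ ori l (y s))
    (h0 : ori l0 (y 0) ≤ e)
    (hM : ∀ l, ori l (y M) ≤ e ∨ 1 - e ≤ ori l (y M))
    (hon : ∃ s ≤ M, 1 - e ≤ ori l0 (y s)) :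
    ∃ (θ : ℕ → ℝ) (n : ℕ), l0 < n ∧ |θ 0 - l0| ≤ e ∧ |θ M - n| ≤ 3 * e ∧
      (∀ s < M, θ s ≤ θ (s + 1) ∧ θ (s + 1) ≤ θ s + 5 * e) ∧
      (∀ s ≤ M, |wave (θ s) - y s| ≤ 2 * e) := by
  obtain ⟨θ, l, s0, s1, hl, h01, h1r, hs0, hmax, hmin, hθr, hθ0, hθs, hθw⟩ :=
    zig_inv y M l0 e he hy hstep hZ h0 M le_rfl
  have hm := ori_mem l (hy s1 h1r)
  have h00 := ori_mem l0 (hy 0 (Nat.zero_le M))
  have hA : |θ 0 - l0| ≤ e := by
    rw [hθ0, abs_le]; constructor <;> linarith [h00.1]
  have h1 := hmax M (by omega) le_rfl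
  have h2 := hmin M h1r le_rfl
  rcases hM l with h | h
  · refine ⟨θ, l, ?_, hA, ?_, hθs, hθw⟩
    · rcases hl.lt_or_eq with h' | h'
      · exact h'
      · exfalso
        subst h'
        obtain ⟨s, hs, hs'⟩ := hon
        have hmono : ∀ a b, a ≤ b → b ≤ M → θ a ≤ θ b := by
          intro a b hab hb
          induction b, hab using Nat.le_induction with
          | base => exact le_rfl
          | succ b _ ih => exact (ih (by omega)).trans (hθs b hb).1
        have h3 := hmono 0 s (Nat.zero_le s) hs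
        have h4 := hmono s M hs le_rfl
        have h5 : θ s - l0 ∈ Icc (0 : ℝ) 1 := ⟨by linarith [h00.1], by linarith [hm.2]⟩
        have h6 := hθw s hs
        have h7 := wave_lap l0 h5
        rw [add_sub_cancel] at h7
        rw [h7, ← abs_ori_sub l0, ori_ori, abs_le] at h6
        linarith [h6.1]
    · rw [hθr, abs_le]; constructor <;> linarith [hm.1]
  · refine ⟨θ, l + 1, by omega, hA, ?_, hθs, hθw⟩
    rw [hθr, abs_le]; push_cast; constructor <;> linarith [hm.2]

/-- the tent map with laps `l0, …, n - 1` -/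
noncomputable def tent (l0 n : ℕ) (u : unitInterval) : unitInterval :=
  ⟨wave (l0 + ((n : ℝ) - l0) * u), wave_mem _⟩

theorem continuous_tent (l0 n : ℕ) : Continuous (tent l0 n) :=
  Continuous.subtype_mk (continuous_wave.comp (by fun_prop)) _

theorem isOpenMap_tent {l0 n : ℕ} (h : l0 < n) : IsOpenMap (tent l0 n) := by
  apply IsOpenMap.of_sections
  intro u
  have hd : (0 : ℝ) < (n : ℝ) - l0 := by
    have : (l0 : ℝ) < n := by exact_mod_cast h
    linarith
  obtain ⟨l, hl0, hln, hl⟩ : ∃ l : ℕ, l0 ≤ l ∧ l < n ∧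
      l0 + ((n : ℝ) - l0) * u - l ∈ Icc (0 : ℝ) 1 := by
    have hu0 := u.2.1
    have hu1 := u.2.2
    have ht0 : (l0 : ℝ) ≤ l0 + ((n : ℝ) - l0) * u := by nlinarith
    have ht1 : l0 + ((n : ℝ) - l0) * u ≤ n := by nlinarith
    set t := l0 + ((n : ℝ) - l0) * u with ht
    have htn : (0 : ℝ) ≤ t := le_trans (Nat.cast_nonneg l0) ht0
    rcases ht1.lt_or_eq with h' | h'
    · refine ⟨⌊t⌋₊, Nat.le_floor ht0, (Nat.floor_lt htn).mpr h', ?_, ?_⟩
      · linarith [Nat.floor_le htn]
      · linarith [Nat.lt_floor_add_one t]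
    · obtain ⟨m, rfl⟩ : ∃ m, n = m + 1 := ⟨n - 1, by omega⟩
      refine ⟨m, by omega, by omega, ?_, ?_⟩
      · rw [h']; push_cast; linarith
      · rw [h']; push_cast; linarith
  have hl0' : (l0 : ℝ) ≤ l := by exact_mod_cast hl0
  have hln' : (l : ℝ) + 1 ≤ n := by exact_mod_cast hln
  have hmem : ∀ v : unitInterval, (l + ori l v - l0) / ((n : ℝ) - l0) ∈ unitInterval := by
    intro v
    have := ori_mem l v.2
    exact ⟨div_nonneg (by linarith [this.1]) hd.le, (div_le_one hd).mpr (by linarith [this.2])⟩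
  refine ⟨fun v => ⟨(l + ori l v - l0) / ((n : ℝ) - l0), hmem v⟩, ?_, ?_, ?_⟩
  · apply Continuous.continuousAt
    refine Continuous.subtype_mk ?_ _
    have := (continuous_ori l).comp (continuous_subtype_val (p := fun x => x ∈ unitInterval))
    exact ((continuous_const.add this).sub continuous_const).div_const _
  · apply Subtype.ext
    have h7 := wave_lap l hl
    rw [add_sub_cancel] at h7
    simp only [tent, h7, ori_ori]
    field_simp
    ring
  · intro v
    apply Subtype.ext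
    simp only [tent]
    rw [show (l0 : ℝ) + ((n : ℝ) - l0) * ((l + ori l v - l0) / ((n : ℝ) - l0)) = l + ori l v by
      field_simp; ring, wave_lap l (ori_mem l v.2), ori_ori]

/-- monotone continuous interpolation of a monotone finite sequence -/
theorem interp (θ : ℕ → ℝ) (M : ℕ) (hM : 0 < M) (hθ : ∀ s < M, θ s ≤ θ (s + 1)) :
    ∃ Θ : ℝ → ℝ, Continuous Θ ∧ Monotone Θ ∧ ∀ s ≤ M, Θ ((s : ℝ) / M) = θ s := by
  have hM' : (0 : ℝ) < M := by exact_mod_cast hM
  refine ⟨fun t => θ 0 + ∑ r ∈ Finset.range M, (θ (r + 1) - θ r) * max 0 (min 1 (M * t - r)),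
    by fun_prop, ?_, ?_⟩
  · intro a b hab
    refine add_le_add le_rfl (Finset.sum_le_sum fun r hr => ?_)
    refine mul_le_mul_of_nonneg_left ?_ (sub_nonneg.mpr (hθ r (Finset.mem_range.mp hr)))
    exact max_le_max le_rfl (min_le_min le_rfl (by nlinarith))
  · intro s hs
    have h1 : ∀ r ∈ Finset.range M, (θ (r + 1) - θ r) * max 0 (min 1 (M * ((s : ℝ) / M) - r))
        = if r < s then θ (r + 1) - θ r else 0 := by
      intro r _
      rw [mul_div_cancel₀ _ hM'.ne']
      split_ifs with h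
      · have : (r : ℝ) + 1 ≤ s := by exact_mod_cast h
        rw [min_eq_left (by linarith), max_eq_right zero_le_one, mul_one]
      · have : (s : ℝ) ≤ r := by exact_mod_cast not_lt.mp h
        rw [max_eq_left ((min_le_right _ _).trans (by linarith)), mul_zero]
    simp only
    rw [Finset.sum_congr rfl h1, ← Finset.sum_filter]
    have h2 : (Finset.range M).filter (fun r => r < s) = Finset.range s := by
      ext r
      simp only [Finset.mem_filter, Finset.mem_range]
      omega
    rw [h2, Finset.sum_range_sub]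
    ring

/-- an open map close to a monotone phase composed with the wave -/
theorem open_of_phase (θ : ℕ → ℝ) (M l0 n : ℕ) (e : ℝ) (he : 0 < e) (hM : 0 < M) (h : l0 < n)
    (h0 : |θ 0 - l0| ≤ e) (h1 : |θ M - n| ≤ 3 * e)
    (hθ : ∀ s < M, θ s ≤ θ (s + 1) ∧ θ (s + 1) ≤ θ s + 5 * e) :
    ∃ F : unitInterval → unitInterval, Continuous F ∧ IsOpenMap F ∧
      ∀ t : unitInterval, ∃ s ≤ M, |(t : ℝ) - (s : ℝ) / M| ≤ 1 / M ∧
        |(F t : ℝ) - wave (θ s)| ≤ 10 * e := by
  obtain ⟨Θ, hΘc, hΘm, hΘ⟩ := interp θ M hM fun s hs => (hθ s hs).1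
  have hM' : (0 : ℝ) < M := by exact_mod_cast hM
  have hΘ0 : Θ 0 = θ 0 := by simpa using hΘ 0 (Nat.zero_le M)
  have hΘ1 : Θ 1 = θ M := by simpa [hM'.ne'] using hΘ M le_rfl
  set D := θ M - θ 0 + e with hD
  have hD0 : 0 < D := by
    have := hΘm (zero_le_one (α := ℝ))
    rw [hΘ0, hΘ1] at this
    linarith
  have hmem : ∀ t : unitInterval, (Θ t - θ 0 + e * t) / D ∈ unitInterval := by
    intro t
    have a0 := hΘm t.2.1
    have a1 := hΘm t.2.2
    rw [hΘ0] at a0
    rw [hΘ1] at a1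
    have b0 := t.2.1
    have b1 := t.2.2
    exact ⟨div_nonneg (by nlinarith) hD0.le, (div_le_one hD0).mpr (by nlinarith)⟩
  set lam : unitInterval → unitInterval := fun t => ⟨(Θ t - θ 0 + e * t) / D, hmem t⟩ with hlam
  have hlc : Continuous lam := Continuous.subtype_mk (by fun_prop) _
  have hls : StrictMono lam := by
    intro a b hab
    have hab' : (a : ℝ) < b := hab
    have := hΘm hab'.le
    show (Θ a - θ 0 + e * a) / D < (Θ b - θ 0 + e * b) / D
    exact div_lt_div_of_pos_right (by nlinarith) hD0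
  have hl0 : lam 0 = 0 := Subtype.ext (by simp [hlam, hΘ0])
  have hl1 : lam 1 = 1 := Subtype.ext (by
    simp only [hlam, Set.Icc.coe_one, hΘ1, mul_one]
    exact div_self hD0.ne')
  have hsurj : Function.Surjective lam := by
    intro v
    have := intermediate_value_univ 0 1 hlc
    rw [hl0, hl1] at this
    exact this ⟨v.2.1, v.2.2⟩
  have hlo : IsOpenMap lam :=
    (isHomeomorph_iff_continuous_bijective.mpr ⟨hlc, hls.injective, hsurj⟩).isOpenMap
  refine ⟨tent l0 n ∘ lam, (continuous_tent l0 n).comp hlc, (isOpenMap_tent h).comp hlo, ?_⟩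
  intro t
  have b0 := t.2.1
  have b1 := t.2.2
  have hMt : (0 : ℝ) ≤ M * t := by positivity
  have hs : ⌊(M : ℝ) * t⌋₊ ≤ M := Nat.floor_le_of_le (by nlinarith)
  set s := ⌊(M : ℝ) * t⌋₊ with hsdef
  have c0 : (s : ℝ) / M ≤ t := by
    rw [div_le_iff₀ hM', mul_comm]; exact Nat.floor_le hMt
  have c1 : (t : ℝ) ≤ ((s + 1 : ℕ) : ℝ) / M := by
    rw [le_div_iff₀ hM', mul_comm]; push_cast; exact (Nat.lt_floor_add_one _).le
  refine ⟨s, hs, ?_, ?_⟩
  · push_cast at c1
    rw [add_div] at c1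
    rw [abs_le]
    constructor <;> linarith [show (0 : ℝ) < 1 / M by positivity]
  · have d0 : θ s ≤ Θ t := by rw [← hΘ s hs]; exact hΘm c0
    have d1 : Θ t ≤ θ s + 5 * e := by
      rcases hs.lt_or_eq with h' | h'
      · refine le_trans ?_ (hθ s h').2
        rw [← hΘ (s + 1) h']; exact hΘm c1
      · have := hΘm b1
        rw [hΘ1] at this
        rw [h']; linarith
    refine (wave_lip _ _).trans ?_
    have f0 := (lam t).2.1
    have f1 := (lam t).2.2
    have f2 : Θ t - θ 0 + e * t = D * (lam t : ℝ) := by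
      simp only [hlam]; field_simp
    rw [abs_le] at h0 h1 ⊢
    obtain ⟨h0a, h0b⟩ := h0
    obtain ⟨h1a, h1b⟩ := h1
    have f3 : (l0 : ℝ) + ((n : ℝ) - l0) * (lam t : ℝ) - (Θ t + e * t)
        = (1 - (lam t : ℝ)) * (l0 - θ 0) + (lam t : ℝ) * (n - θ M - e) := by
      have : Θ t + e * t = θ 0 + D * (lam t : ℝ) := by linarith
      rw [this, hD]; ring
    have g0 : 0 ≤ e * t := by positivity
    have g1 : e * t ≤ e := by nlinarith
    constructor <;> nlinarith

end Pool.Agent.P.MP_18ddbc_gt
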