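import Mathlib
import Pool.Agent.P.MP_18ddbc_gt.Topo
import Pool.Agent.P.MP_18ddbc_gt.Zig

set_option autoImplicit false

namespace Pool.Agent.P.MP_18ddbc_gt

open Set Topology Filter

/-- from every point one can climb to the level `1` inside a connected set without going down -/
def Climb {X : Type*} [TopologicalSpace X] (φ : X → ℝ) : Prop :=
  ∀ x, ∃ C : Set X, IsPreconnected C ∧ x ∈ C ∧ (∀ w ∈ C, φ x ≤ φ w) ∧ ∃ z ∈ C, φ z = 1

theorem end_value {X : Type*} [TopologicalSpace X] {p φ : X → ℝ} (hp : Continuous p) {e : ℝ}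
    (hU : ∀ x z, p x = p z → |φ x - φ z| ≤ e) (h1 : Climb φ) (h2 : Climb fun x => 1 - φ x)
    (x : X) (hx : ∀ w, p x ≤ p w) : φ x ≤ e ∨ 1 - e ≤ φ x := by
  obtain ⟨C1, hC1, hx1, hle1, z1, hz1, e1⟩ := h1 x
  obtain ⟨C2, hC2, hx2, hle2, z2, hz2, e2⟩ := h2 x
  rcases le_total (p z1) (p z2) with h | h
  · obtain ⟨w, hw, hw'⟩ := hC2.intermediate_value hx2 hz2 hp.continuousOn ⟨hx z1, h⟩
    have a1 := hle2 w hw
    have a2 := abs_le.mp (hU w z1 hw')
    simp only at a1
    right; linarith [a2.1]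
  · obtain ⟨w, hw, hw'⟩ := hC1.intermediate_value hx1 hz1 hp.continuousOn ⟨hx z2, h⟩
    have a1 := hle1 w hw
    have a2 := abs_le.mp (hU w z2 hw')
    simp only at e2
    left; linarith [a2.2]

theorem approx_open {X : Type*} [TopologicalSpace X] {p : X → unitInterval} {φ : X → ℝ}
    (hp : Continuous p) (hps : Function.Surjective p) (hφ : ∀ x, φ x ∈ Icc (0 : ℝ) 1)
    {e δ : ℝ} (he : 0 < e) (he6 : 6 * e < 1) (hδ : 0 < δ)
    (hU : ∀ x z, |(p x : ℝ) - p z| ≤ δ → |φ x - φ z| ≤ e)
    (h1 : Climb φ) (h2 : Climb fun x => 1 - φ x) :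
    ∃ F : unitInterval → unitInterval, Continuous F ∧ IsOpenMap F ∧
      ∀ x, |(F (p x) : ℝ) - φ x| ≤ 13 * e := by
  obtain ⟨M, hM1⟩ := exists_nat_gt (1 / δ)
  have hM' : (0 : ℝ) < M := lt_trans (by positivity) hM1
  have hM : 0 < M := by exact_mod_cast hM'
  have hMδ : 1 / (M : ℝ) ≤ δ := by
    rw [div_le_iff₀ hM']
    rw [div_lt_iff₀ hδ] at hM1
    linarith
  have hp' : Continuous fun x => (p x : ℝ) := continuous_subtype_val.comp hp
  have hU0 : ∀ x z, (p x : ℝ) = p z → |φ x - φ z| ≤ e := fun x z h =>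
    hU x z (by rw [h, sub_self, abs_zero]; exact hδ.le)
  have hex : ∀ s : ℕ, ∃ x : X, s ≤ M → (p x : ℝ) = (s : ℝ) / M := by
    intro s
    by_cases hs : s ≤ M
    · have hs' : (s : ℝ) ≤ M := by exact_mod_cast hs
      obtain ⟨x, hx⟩ := hps ⟨(s : ℝ) / M, by positivity, (div_le_one hM').mpr hs'⟩
      exact ⟨x, fun _ => by rw [hx]⟩
    · obtain ⟨x, -⟩ := hps 0
      exact ⟨x, fun h => absurd h hs⟩
  choose xs hxs using hex
  have hclimb : ∀ l, Climb fun x => ori l (φ x) := by
    intro l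
    unfold ori
    split_ifs
    · exact h1
    · exact h2
  -- the grid point below a point
  have hfl : ∀ z : X, ∃ s ≤ M, (s : ℝ) / M ≤ p z ∧ (p z : ℝ) < (s + 1 : ℝ) / M ∧
      |φ (xs s) - φ z| ≤ e := by
    intro z
    have b0 := (p z).2.1
    have b1 := (p z).2.2
    have hMt : (0 : ℝ) ≤ M * p z := by positivity
    have hs : ⌊(M : ℝ) * p z⌋₊ ≤ M := Nat.floor_le_of_le (by nlinarith)
    have c0 : (⌊(M : ℝ) * p z⌋₊ : ℝ) / M ≤ p z := by
      rw [div_le_iff₀ hM', mul_comm (p z : ℝ)]; exact Nat.floor_le hMt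
    have c1 : (p z : ℝ) < (⌊(M : ℝ) * p z⌋₊ + 1 : ℝ) / M := by
      rw [lt_div_iff₀ hM', mul_comm (p z : ℝ)]; exact Nat.lt_floor_add_one _
    refine ⟨_, hs, c0, c1, hU _ _ ?_⟩
    rw [hxs _ hs, abs_le]
    rw [add_div] at c1
    constructor <;> linarith
  have hend0 := end_value hp' hU0 h1 h2 (xs 0) (fun w => by
    rw [hxs 0 (Nat.zero_le M)]; simpa using (p w).2.1)
  have hendM := end_value (p := fun x => -(p x : ℝ)) hp'.neg
    (fun x z h => hU0 x z (neg_injective h)) h1 h2 (xs M) (fun w => by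
    rw [hxs M le_rfl, div_self hM'.ne']; simpa using (p w).2.2)
  obtain ⟨l0, hl0⟩ : ∃ l0 : ℕ, ori l0 (φ (xs 0)) ≤ e := by
    rcases hend0 with h | h
    · exact ⟨0, by simpa [ori] using h⟩
    · exact ⟨1, by simp only [ori, Nat.not_even_one, if_false]; linarith⟩
  obtain ⟨θ, n, hn, t0, t1, t2, t3⟩ := zig (fun s => φ (xs s)) M l0 e he he6
    (fun s _ => hφ _)
    (fun s hs => hU _ _ (by
      rw [hxs _ hs, hxs _ hs.le]
      push_cast
      rw [add_div, add_sub_cancel_left, abs_of_pos (by positivity)]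
      exact hMδ))
    (by
      intro l a b c hab hbc hc ha' hc'
      obtain ⟨C, hC, hbC, hle, z, hz, hz1⟩ := hclimb l (xs b)
      have hab' : (a : ℝ) / M ≤ (b : ℝ) / M :=
        div_le_div_of_nonneg_right (by exact_mod_cast hab) hM'.le
      have hbc' : (b : ℝ) / M ≤ (c : ℝ) / M :=
        div_le_div_of_nonneg_right (by exact_mod_cast hbc) hM'.le
      have hav : ∀ d ≤ M, ori l (φ (xs d)) + e < ori l (φ (xs b)) →
          ∀ w ∈ C, (p w : ℝ) ≠ (d : ℝ) / M := by
        intro d hd hlt w hw hwd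
        have a1 := hle w hw
        have a2 := hU0 w (xs d) (by rw [hwd, hxs d hd])
        rw [← abs_ori_sub l, abs_le] at a2
        simp only at a1
        linarith [a2.2]
      have hza : (a : ℝ) / M ≤ p z := by
        by_contra h
        obtain ⟨w, hw, hw'⟩ := hC.intermediate_value hz hbC hp'.continuousOn
          (show (a : ℝ) / M ∈ Icc (p z : ℝ) (p (xs b)) from
            ⟨(not_le.mp h).le, by rw [hxs b (by omega)]; exact hab'⟩)
        exact hav a (by omega) ha' w hw hw'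
      have hzc : (p z : ℝ) ≤ (c : ℝ) / M := by
        by_contra h
        obtain ⟨w, hw, hw'⟩ := hC.intermediate_value hbC hz hp'.continuousOn
          (show (c : ℝ) / M ∈ Icc (p (xs b) : ℝ) (p z) from
            ⟨by rw [hxs b (by omega)]; exact hbc', (not_le.mp h).le⟩)
        exact hav c hc hc' w hw hw'
      obtain ⟨s, hs, s1, s2, s3⟩ := hfl z
      refine ⟨s, ?_, ?_, ?_⟩
      · have : (a : ℝ) < s + 1 := (div_lt_div_iff_of_pos_right hM').mp (hza.trans_lt s2)
        have : a < s + 1 := by exact_mod_cast this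
        omega
      · have : (s : ℝ) ≤ c := (div_le_div_iff_of_pos_right hM').mp (s1.trans hzc)
        exact_mod_cast this
      · rw [← abs_ori_sub l, abs_le] at s3
        simp only at hz1
        linarith [s3.1])
    hl0
    (by
      intro l
      unfold ori
      split_ifs
      · exact hendM
      · rcases hendM with h | h
        · right; linarith
        · left; linarith)
    (by
      obtain ⟨C, -, -, -, z, -, hz1⟩ := hclimb l0 (xs 0)
      obtain ⟨s, hs, -, -, s3⟩ := hfl z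
      refine ⟨s, hs, ?_⟩
      rw [← abs_ori_sub l0, abs_le] at s3
      simp only at hz1
      linarith [s3.1])
  obtain ⟨F, hFc, hFo, hF⟩ := open_of_phase θ M l0 n e he hM hn t0 t1 t2
  refine ⟨F, hFc, hFo, fun x => ?_⟩
  obtain ⟨s, hs, u1, u2⟩ := hF (p x)
  have u3 := t3 s hs
  have u4 := hU x (xs s) (by rw [hxs s hs]; exact u1.trans hMδ)
  rw [abs_le] at u2 u3 u4 ⊢
  constructor <;> linarith [u2.1, u2.2, u3.1, u3.2, u4.1, u4.2]

theorem isPreconnected_preimage_uIcc {a b : ℝ} (ha : a ∈ unitInterval) (hb : b ∈ unitInterval) :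
    IsPreconnected ((↑) ⁻¹' (uIcc a b) : Set unitInterval) := by
  rw [← Topology.IsInducing.subtypeVal.isPreconnected_image, Subtype.image_preimage_coe,
    inter_eq_right.mpr (uIcc_subset_Icc ha hb)]
  exact isPreconnected_uIcc

/-- confluence of a real valued map, in the form used below -/
def Conf {X : Type*} [TopologicalSpace X] (φ : X → unitInterval) : Prop :=
  ∀ (x : X) (y : unitInterval), ∃ C : Set X, IsPreconnected C ∧ x ∈ C ∧
    (∀ w ∈ C, (φ w : ℝ) ∈ uIcc (φ x : ℝ) y) ∧ ∃ z ∈ C, φ z = y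

theorem conf_of_open {X : Type*} [TopologicalSpace X] [CompactSpace X] [T2Space X]
    {G : X → unitInterval} (hG : Continuous G) (hGo : IsOpenMap G) : Conf G := by
  intro x y
  have hK : IsClosed ((↑) ⁻¹' (uIcc (G x : ℝ) y) : Set unitInterval) :=
    isClosed_Icc.preimage continuous_subtype_val
  obtain ⟨z, hz, hzy⟩ := whyburn hG hGo hK (isPreconnected_preimage_uIcc (G x).2 y.2) (x := x)
    left_mem_uIcc (y := y) right_mem_uIcc
  exact ⟨connectedComponentIn (G ⁻¹' (Subtype.val ⁻¹' (uIcc (G x : ℝ) y))) x,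
    isPreconnected_connectedComponentIn,
    mem_connectedComponentIn (show (G x : ℝ) ∈ uIcc (G x : ℝ) y from left_mem_uIcc),
    fun w hw => connectedComponentIn_subset (G ⁻¹' (Subtype.val ⁻¹' (uIcc (G x : ℝ) y))) x hw, z, hz, hzy⟩

theorem conf_of_limit {X : Type*} [TopologicalSpace X] [CompactSpace X] [T2Space X]
    {φ : X → unitInterval} (hφ : Continuous φ)
    (H : ∀ ε > 0, ∃ G : X → unitInterval, Conf G ∧ ∀ x, |(G x : ℝ) - φ x| ≤ ε) : Conf φ := by
  intro x y
  have hφ' : Continuous fun w => (φ w : ℝ) := continuous_subtype_val.comp hφ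
  have hanti : ∀ m n : ℕ, m ≤ n → 1 / ((n : ℝ) + 1) ≤ 1 / ((m : ℝ) + 1) := fun m n h =>
    Nat.one_div_le_one_div h
  obtain ⟨z, hz1, hz2⟩ := nested
    (A := fun n : ℕ => {w | min (φ x : ℝ) y - 1 / ((n : ℝ) + 1) ≤ φ w ∧
      (φ w : ℝ) ≤ max (φ x : ℝ) y + 1 / ((n : ℝ) + 1)})
    (B := fun n : ℕ => {w | |(φ w : ℝ) - y| ≤ 1 / ((n : ℝ) + 1)})
    (fun n => (isClosed_le continuous_const hφ').inter (isClosed_le hφ' continuous_const))
    (fun n => isClosed_le (hφ'.sub continuous_const).abs continuous_const)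
    (fun m n h w hw => ⟨by linarith [hw.1, hanti m n h], by linarith [hw.2, hanti m n h]⟩)
    (fun m n h w hw => le_trans hw (hanti m n h)) (x := x)
    (by
      intro n
      have hpos : 0 < 1 / ((n : ℝ) + 1) := Nat.one_div_pos_of_nat
      obtain ⟨G, hG, hGφ⟩ := H (1 / ((n : ℝ) + 1) / 2) (half_pos hpos)
      obtain ⟨C, hC, hxC, hCI, z, hz, hzy⟩ := hG x y
      refine ⟨C, hC, hxC, ?_, z, hz, ?_⟩
      · intro w hw
        have a1 := hCI w hw
        have a2 := abs_le.mp (hGφ w)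
        have a3 := abs_le.mp (hGφ x)
        have a4 := min_le_left (φ x : ℝ) y
        have a5 := min_le_right (φ x : ℝ) y
        have a6 := le_max_left (φ x : ℝ) y
        have a7 := le_max_right (φ x : ℝ) y
        rcases mem_uIcc.mp a1 with h | h
        · exact ⟨by linarith [h.1, a2.2, a3.1], by linarith [h.2, a2.1]⟩
        · exact ⟨by linarith [h.1, a2.2], by linarith [h.2, a2.1, a3.2]⟩
      · have a2 := hGφ z
        rw [hzy, abs_sub_comm] at a2
        exact a2.trans (by linarith))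
  have hsmall : ∀ u v : ℝ, (∀ n : ℕ, u ≤ v + 1 / ((n : ℝ) + 1)) → u ≤ v := by
    intro u v h
    apply le_of_forall_pos_le_add
    intro ε hε
    obtain ⟨n, hn⟩ := exists_nat_one_div_lt hε
    linarith [h n]
  have hxA : x ∈ ⋂ n : ℕ, {w | min (φ x : ℝ) y - 1 / ((n : ℝ) + 1) ≤ φ w ∧
      (φ w : ℝ) ≤ max (φ x : ℝ) y + 1 / ((n : ℝ) + 1)} :=
    connectedComponentIn_nonempty_iff.mp ⟨z, hz1⟩
  refine ⟨_, isPreconnected_connectedComponentIn, mem_connectedComponentIn hxA, ?_, z, hz1, ?_⟩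
  · intro w hw
    have := mem_iInter.mp (connectedComponentIn_subset _ _ hw)
    exact ⟨hsmall _ _ fun n => by linarith [(this n).1], hsmall _ _ fun n => (this n).2⟩
  · have := mem_iInter.mp hz2
    have h0 : |(φ z : ℝ) - y| ≤ 0 := hsmall _ _ fun n => by simpa using this n
    exact Subtype.ext (sub_eq_zero.mp (abs_nonpos_iff.mp h0))

variable {g h : ℕ → unitInterval → unitInterval}

/-- coordinatewise confluence gives confluence -/
theorem confluent_of_conf (hg : ∀ k, Continuous (g k)) (hh : ∀ k, Continuous (h k))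
    {f : IL g → IL h} (hf : Continuous f) (H : ∀ j, Conf fun x => (f x).1 j)
    (K : Set (IL h)) (hK : IsClosed K) (hKc : IsConnected K) (x : IL g) (hx : f x ∈ K) :
    f '' connectedComponentIn (f ⁻¹' K) x = K := by
  have := compactSpace_IL hg
  have := compactSpace_IL hh
  apply Subset.antisymm
  · rintro _ ⟨w, hw, rfl⟩
    exact connectedComponentIn_subset (f ⁻¹' K) x hw
  intro y hy
  have hfj : ∀ j, Continuous fun w => (f w).1 j := fun j => (continuous_proj j).comp hf
  obtain ⟨z, hz1, hz2⟩ := nested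
    (A := fun j : ℕ => {w | (f w).1 j ∈ (fun u : IL h => u.1 j) '' K})
    (B := fun j : ℕ => {w | (f w).1 j = y.1 j})
    (fun j => (hK.isCompact.image (continuous_proj j)).isClosed.preimage (hfj j))
    (fun j => isClosed_eq (hfj j) continuous_const)
    (fun m n hmn w ⟨u, hu, hu'⟩ => ⟨u, hu, proj_eq_of_le hmn hu'⟩)
    (fun m n hmn w hw => proj_eq_of_le hmn hw) (x := x)
    (by
      intro j
      obtain ⟨C, hC, hxC, hCI, z, hz, hzy⟩ := H j x (y.1 j)
      refine ⟨C, hC, hxC, ?_, z, hz, hzy⟩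
      intro w hw
      have hc : Continuous fun u : IL h => (u.1 j : ℝ) :=
        continuous_subtype_val.comp (continuous_proj j)
      have : ((f w).1 j : ℝ) ∈ (fun u : IL h => (u.1 j : ℝ)) '' K := by
        rcases mem_uIcc.mp (hCI w hw) with h' | h'
        · exact hKc.isPreconnected.intermediate_value hx hy hc.continuousOn h'
        · exact hKc.isPreconnected.intermediate_value hy hx hc.continuousOn h'
      obtain ⟨u, hu, hu'⟩ := this
      exact ⟨u, hu, Subtype.ext hu'⟩)
  refine ⟨z, connectedComponentIn_mono x ?_ hz1,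
    Subtype.ext (funext fun j => mem_iInter.mp hz2 j)⟩
  intro w hw
  by_contra hwK
  obtain ⟨N, hN⟩ := exists_proj_notMem hh hK hwK
  exact hN N le_rfl (mem_iInter.mp hw N)

/-- confluence gives coordinatewise confluence -/
theorem conf_of_confluent (hh : ∀ k, Continuous (h k) ∧ IsOpenMap (h k)) {f : IL g → IL h}
    (H : ∀ K : Set (IL h), IsClosed K → IsConnected K →
      ∀ x, f x ∈ K → f '' connectedComponentIn (f ⁻¹' K) x = K) (j : ℕ) :
    Conf fun x => (f x).1 j := by
  have := compactSpace_IL fun k => (hh k).1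
  intro x y
  obtain ⟨C, hC, hxC, hCI, z, hz, hzy⟩ :=
    conf_of_open (continuous_proj j) (isOpenMap_proj hh j) (f x) y
  have hcl : IsConnected (closure C) := ⟨⟨f x, subset_closure hxC⟩, hC.closure⟩
  have hK := H (closure C) isClosed_closure hcl x (subset_closure hxC)
  have hzK : z ∈ closure C := subset_closure hz
  rw [← hK] at hzK
  obtain ⟨w, hw, hwz⟩ := hzK
  refine ⟨_, isPreconnected_connectedComponentIn,
    mem_connectedComponentIn (show x ∈ f ⁻¹' closure C from subset_closure hxC), ?_, w, hw, ?_⟩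
  · intro v hv
    have h1 : f v ∈ closure C := connectedComponentIn_subset (f ⁻¹' closure C) x hv
    have h2 : IsClosed {u : IL h | (u.1 j : ℝ) ∈ uIcc ((f x).1 j : ℝ) y} :=
      isClosed_Icc.preimage (continuous_subtype_val.comp (continuous_proj j))
    exact closure_minimal hCI h2 h1
  · simp only [hwz]; exact hzy

theorem Conf.climb {X : Type*} [TopologicalSpace X] {φ : X → unitInterval} (H : Conf φ) :
    Climb (fun x => (φ x : ℝ)) ∧ Climb fun x => 1 - (φ x : ℝ) := by
  constructor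
  · intro x
    obtain ⟨C, hC, hxC, hCI, z, hz, hzy⟩ := H x 1
    refine ⟨C, hC, hxC, fun w hw => ?_, z, hz, by simp [hzy]⟩
    have := hCI w hw
    rw [uIcc_of_le (show (φ x : ℝ) ≤ (1 : unitInterval) from (φ x).2.2)] at this
    exact this.1
  · intro x
    obtain ⟨C, hC, hxC, hCI, z, hz, hzy⟩ := H x 0
    refine ⟨C, hC, hxC, fun w hw => ?_, z, hz, by simp [hzy]⟩
    have := hCI w hw
    rw [uIcc_of_ge (show ((0 : unitInterval) : ℝ) ≤ φ x from (φ x).2.1)] at this
    simp only
    linarith [this.2]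

theorem approximable_of_conf (hg : ∀ k, Continuous (g k) ∧ IsOpenMap (g k))
    {φ : IL g → unitInterval} (hφ : Continuous φ) (H : Conf φ) :
    ∃ F : ℕ → unitInterval → unitInterval, (∀ i, Continuous (F i) ∧ IsOpenMap (F i)) ∧
      TendstoUniformly (fun (i : ℕ) (x : IL g) => F i (x.1 i)) φ atTop := by
  classical
  set Good : ℕ → ℕ → Prop := fun i n => ∃ F : unitInterval → unitInterval,
    Continuous F ∧ IsOpenMap F ∧ ∀ x : IL g, |(F (x.1 i) : ℝ) - φ x| ≤ 1 / ((n : ℝ) + 1)
    with hGood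
  have h0 : ∀ i, Good i 0 := by
    intro i
    refine ⟨id, continuous_id, IsOpenMap.id, fun x => ?_⟩
    have a1 := (x.1 i).2
    have a2 := (φ x).2
    simp only [id, Nat.cast_zero, zero_add, div_one]
    rw [abs_le]
    constructor <;> linarith [a1.1, a1.2, a2.1, a2.2]
  have h1 : ∀ n, ∃ N, ∀ i, N ≤ i → Good i n := by
    intro n
    have hpos : 0 < 1 / ((n : ℝ) + 1) := Nat.one_div_pos_of_nat
    have hle : 1 / ((n : ℝ) + 1) ≤ 1 := by
      simpa using Nat.one_div_le_one_div (α := ℝ) (Nat.zero_le n)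
    obtain ⟨N, hN⟩ := almost_factor (fun k => (hg k).1) (continuous_subtype_val.comp hφ)
      (e := 1 / ((n : ℝ) + 1) / 13) (by positivity)
    refine ⟨N, fun i hi => ?_⟩
    obtain ⟨δ, hδ, hU⟩ := hN i hi
    obtain ⟨F, a1, a2, a3⟩ := approx_open (p := fun x : IL g => x.1 i)
      (φ := fun x => (φ x : ℝ)) (continuous_proj i)
      (proj_surj i g fun k => surj_of_open (hg k).1 (hg k).2) (fun x => (φ x).2)
      (e := 1 / ((n : ℝ) + 1) / 13) (by positivity) (by linarith) hδ hU H.climb.1 H.climb.2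
    exact ⟨F, a1, a2, fun x => (a3 x).trans (by linarith)⟩
  have h2 : ∀ i, Good i (Nat.findGreatest (Good i) i) := fun i =>
    Nat.findGreatest_spec (Nat.zero_le i) (h0 i)
  choose F hFc hFo hF using h2
  refine ⟨F, fun i => ⟨hFc i, hFo i⟩, ?_⟩
  rw [Metric.tendstoUniformly_iff]
  intro ε hε
  obtain ⟨n, hn⟩ := exists_nat_one_div_lt hε
  obtain ⟨N, hN⟩ := h1 n
  filter_upwards [eventually_ge_atTop (max N n)] with i hi x
  have a1 : n ≤ Nat.findGreatest (Good i) i :=
    Nat.le_findGreatest (le_of_max_le_right hi) (hN i (le_of_max_le_left hi))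
  rw [Subtype.dist_eq, Real.dist_eq, abs_sub_comm]
  exact ((hF i x).trans (Nat.one_div_le_one_div a1)).trans_lt hn

theorem conf_of_approximable (hg : ∀ k, Continuous (g k) ∧ IsOpenMap (g k))
    {φ : IL g → unitInterval} (hφ : Continuous φ)
    (H : ∃ F : ℕ → unitInterval → unitInterval, (∀ i, Continuous (F i) ∧ IsOpenMap (F i)) ∧
      TendstoUniformly (fun (i : ℕ) (x : IL g) => F i (x.1 i)) φ atTop) : Conf φ := by
  have := compactSpace_IL fun k => (hg k).1
  obtain ⟨F, hF, hlim⟩ := H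
  refine conf_of_limit hφ fun ε hε => ?_
  obtain ⟨i, hi⟩ := (Metric.tendstoUniformly_iff.mp hlim ε hε).exists
  refine ⟨fun x => F i (x.1 i), conf_of_open ((hF i).1.comp (continuous_proj i))
    ((hF i).2.comp (isOpenMap_proj hg i)), fun x => ?_⟩
  have := hi x
  rw [Subtype.dist_eq, Real.dist_eq, abs_sub_comm] at this
  exact this.le

end Pool.Agent.P.MP_18ddbc_gt
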