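import Mathlib
import Pool.Agent.P.MP_18ddbc_gt.Main

set_option autoImplicit false

namespace Pool.Agent.P.MP_18ddbc_gt

open Set Topology Filter

/-- Real maps on continua are weakly confluent. -/
theorem weak_conf {X : Type*} [TopologicalSpace X] [CompactSpace X] [T2Space X]
    [PreconnectedSpace X] {p : X → ℝ} (hp : Continuous p) {a b : ℝ}
    (ha : ∃ x, p x = a) (hb : ∃ x, p x = b) (hab : a ≤ b) :
    ∃ C : Set X, IsPreconnected C ∧ (∀ w ∈ C, p w ∈ Icc a b) ∧ (∃ u ∈ C, p u = a) ∧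
      ∃ v ∈ C, p v = b := by
  by_contra hcon
  have hA : IsClosed (p ⁻¹' Icc a b) := isClosed_Icc.preimage hp
  have hB : IsClosed (p ⁻¹' {b}) := isClosed_singleton.preimage hp
  have h1 : ∀ u : X, ∃ U V : Set X, IsOpen U ∧ IsOpen V ∧ Disjoint U V ∧
      p ⁻¹' Icc a b ⊆ U ∪ V ∧ (p u = a → u ∈ U) ∧ ¬ (p ⁻¹' Icc a b ∩ U ∩ p ⁻¹' {b}).Nonempty := by
    intro u
    by_cases hu : p u = a
    · by_contra h
      push Not at h
      have huA : u ∈ p ⁻¹' Icc a b := by
        show p u ∈ Icc a b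
        rw [hu]; exact ⟨le_rfl, hab⟩
      obtain ⟨v, hv1, hv2⟩ := comp_meets hA hB huA
        (fun U V hU hV hUV hs huU => h U V hU hV hUV hs fun _ => huU)
      exact hcon ⟨_, isPreconnected_connectedComponentIn,
        fun w hw => connectedComponentIn_subset (p ⁻¹' Icc a b) u hw,
        ⟨u, mem_connectedComponentIn huA, hu⟩, v, hv1, hv2⟩
    · exact ⟨∅, univ, isOpen_empty, isOpen_univ, disjoint_bot_left, by simp,
        fun h => absurd h hu, by simp⟩
  choose U V hU hV hUV hsub hu hne using h1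
  obtain ⟨t, ht⟩ := (isClosed_singleton.preimage hp (t := {a})).isCompact.elim_finite_subcover U hU
    (fun u hu' => mem_iUnion.mpr ⟨u, hu u hu'⟩)
  have hS : IsClosed ((⋃ u ∈ t, p ⁻¹' Icc a b ∩ (V u)ᶜ) ∪ p ⁻¹' Iic a) :=
    (t.finite_toSet.isClosed_biUnion fun u _ => hA.inter (hV u).isClosed_compl).union
      (isClosed_Iic.preimage hp)
  have hT : IsClosed ((p ⁻¹' Icc a b ∩ (⋃ u ∈ t, U u)ᶜ) ∪ p ⁻¹' Ici b) :=
    (hA.inter (isOpen_biUnion fun u _ => hU u).isClosed_compl).union (isClosed_Ici.preimage hp)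
  obtain ⟨x0, hx0⟩ := ha
  obtain ⟨x1, hx1⟩ := hb
  obtain ⟨z, -, hz1, hz2⟩ := isPreconnected_closed_iff.mp (isPreconnected_univ (α := X)) _ _ hS hT
    (by
      intro z _
      rcases le_total (p z) a with h | h
      · exact Or.inl (Or.inr h)
      rcases le_total b (p z) with h' | h'
      · exact Or.inr (Or.inr h')
      by_cases hz : z ∈ ⋃ u ∈ t, U u
      · obtain ⟨u, hut, hzu⟩ := mem_iUnion₂.mp hz
        exact Or.inl (Or.inl (mem_iUnion₂.mpr ⟨u, hut, ⟨h, h'⟩, disjoint_left.mp (hUV u) hzu⟩))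
      · exact Or.inr (Or.inl ⟨⟨h, h'⟩, hz⟩))
    ⟨x0, mem_univ _, Or.inr hx0.le⟩ ⟨x1, mem_univ _, Or.inr hx1.ge⟩
  rcases hz1 with h | h
  · obtain ⟨u, hut, hzA, hzV⟩ := mem_iUnion₂.mp h
    have hzU : z ∈ U u := (hsub u hzA).resolve_right hzV
    rcases hz2 with h' | h'
    · exact h'.2 (mem_iUnion₂.mpr ⟨u, hut, hzU⟩)
    · exact hne u ⟨z, ⟨hzA, hzU⟩, le_antisymm hzA.2 h'⟩
  · rcases hz2 with h' | h'
    · exact h'.2 (ht (le_antisymm h h'.1.1))
    · have e1 : p z = a := le_antisymm h (hab.trans h')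
      have e2 : p z = b := le_antisymm (le_trans h hab) h'
      obtain ⟨u, -, hzu⟩ := mem_iUnion₂.mp (ht e1)
      exact hne u ⟨z, ⟨⟨e1.ge, e2.le⟩, hzu⟩, e2⟩

theorem weak_conf' {X : Type*} [TopologicalSpace X] [CompactSpace X] [T2Space X]
    [PreconnectedSpace X] {p : X → ℝ} (hp : Continuous p) {a b : ℝ}
    (ha : ∃ x, p x = a) (hb : ∃ x, p x = b) :
    ∃ C : Set X, IsPreconnected C ∧ (∀ w ∈ C, p w ∈ uIcc a b) ∧ (∃ u ∈ C, p u = a) ∧
      ∃ v ∈ C, p v = b := by
  rcases le_total a b with h | h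
  · rw [uIcc_of_le h]; exact weak_conf hp ha hb h
  · rw [uIcc_of_ge h]
    obtain ⟨C, h1, h2, h3, h4⟩ := weak_conf hp hb ha h
    exact ⟨C, h1, h2, h4, h3⟩

/-- Passing to the limit when the connected sets only come close to the base point. -/
theorem nested' {X : Type*} [TopologicalSpace X] [CompactSpace X] [T2Space X]
    {A B D : ℕ → Set X} (hA : ∀ n, IsClosed (A n)) (hB : ∀ n, IsClosed (B n))
    (hD : ∀ n, IsClosed (D n)) (hAm : Antitone A) (hBm : Antitone B) (hDm : Antitone D) {x : X}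
    (hDx : ⋂ n, D n ⊆ {x})
    (H : ∀ n, ∃ C : Set X, IsPreconnected C ∧ (C ∩ D n).Nonempty ∧ C ⊆ A n ∧
      (C ∩ B n).Nonempty) :
    (connectedComponentIn (⋂ n, A n) x ∩ ⋂ n, B n).Nonempty := by
  have hx : x ∈ ⋂ n, A n := by
    obtain ⟨z, hz⟩ := IsCompact.nonempty_iInter_of_sequence_nonempty_isCompact_isClosed
      (fun n => A n ∩ D n)
      (fun n => inter_subset_inter (hAm (Nat.le_succ n)) (hDm (Nat.le_succ n)))
      (fun n => by
        obtain ⟨C, -, ⟨w, hw1, hw2⟩, h2, -⟩ := H n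
        exact ⟨w, h2 hw1, hw2⟩)
      ((hA 0).inter (hD 0)).isCompact (fun n => (hA n).inter (hD n))
    rw [mem_iInter] at hz
    have : z = x := hDx (mem_iInter.mpr fun n => (hz n).2)
    exact mem_iInter.mpr fun n => this ▸ (hz n).1
  refine comp_meets (isClosed_iInter hA) (isClosed_iInter hB) hx ?_
  intro U V hU hV hUV hsub hxU
  obtain ⟨N, hN⟩ := exists_subset_nhds_of_isCompact hAm.directed_ge
    (fun n => (hA n).isCompact) (U := U ∪ V) (fun z hz => (hU.union hV).mem_nhds (hsub hz))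
  obtain ⟨N', hN'⟩ := exists_subset_nhds_of_isCompact hDm.directed_ge
    (fun n => (hD n).isCompact) (U := U) (fun z hz => by
      have : z = x := hDx hz
      exact hU.mem_nhds (this ▸ hxU))
  have hcl : ∀ n, IsClosed (A n ∩ Vᶜ ∩ B n) := fun n =>
    ((hA n).inter hV.isClosed_compl).inter (hB n)
  obtain ⟨z, hz⟩ := IsCompact.nonempty_iInter_of_sequence_nonempty_isCompact_isClosed
    (fun n => A n ∩ Vᶜ ∩ B n)
    (fun n => inter_subset_inter (inter_subset_inter_left _ (hAm (Nat.le_succ n)))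
      (hBm (Nat.le_succ n)))
    (fun n => by
      obtain ⟨C, hC, ⟨v, hvC, hvD⟩, hCA, w, hwC, hwB⟩ := H (n + N + N')
      have hCU : C ⊆ U := hC.subset_left_of_subset_union hU hV hUV
        (hCA.trans ((hAm (by omega : N ≤ n + N + N')).trans hN))
        ⟨v, hvC, hN' (hDm (by omega : N' ≤ n + N + N') hvD)⟩
      exact ⟨w, ⟨hAm (by omega : n ≤ n + N + N') (hCA hwC), disjoint_left.mp hUV (hCU hwC)⟩,
        hBm (by omega : n ≤ n + N + N') hwB⟩)
    (hcl 0).isCompact hcl
  rw [mem_iInter] at hz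
  have hzA : z ∈ ⋂ n, A n := mem_iInter.mpr fun n => (hz n).1.1
  exact ⟨z, ⟨hzA, (hsub hzA).resolve_right (hz 0).1.2⟩, mem_iInter.mpr fun n => (hz n).2⟩

variable {g h : ℕ → unitInterval → unitInterval}

theorem isPreconnected_level (hg : ∀ k, Continuous (g k)) (n : ℕ) :
    IsPreconnected {x : ℕ → unitInterval | ∀ k < n, x k = g k (x (k + 1))} := by
  have key : ∀ n : ℕ, ∃ R : (ℕ → unitInterval) → (ℕ → unitInterval), Continuous R ∧
      (∀ x, ∀ k < n, R x k = g k (R x (k + 1))) ∧ (∀ x k, n ≤ k → R x k = x k) ∧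
      ∀ x, (∀ k < n, x k = g k (x (k + 1))) → R x = x := by
    intro n
    induction n with
    | zero =>
      exact ⟨id, continuous_id, fun x k hk => absurd hk (Nat.not_lt_zero k), fun _ _ _ => rfl,
        fun _ _ => rfl⟩
    | succ n ih =>
      obtain ⟨R, hR, h1, h2, h3⟩ := ih
      refine ⟨fun x => R (Function.update x n (g n (x (n + 1)))),
        hR.comp (continuous_id.update n ((hg n).comp (continuous_apply (n + 1)))), ?_, ?_, ?_⟩
      · intro x k hk
        rcases Nat.lt_succ_iff_lt_or_eq.mp hk with h' | h'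
        · exact h1 _ k h'
        · subst h'
          show R _ k = g k (R _ (k + 1))
          rw [h2 _ k le_rfl, h2 _ (k + 1) (Nat.le_succ k), Function.update_self,
            Function.update_of_ne (Nat.succ_ne_self k)]
      · intro x k hk
        show R _ k = x k
        rw [h2 _ k (by omega), Function.update_of_ne (by omega)]
      · intro x hx
        show R _ = x
        rw [← hx n (Nat.lt_succ_self n), Function.update_eq_self]
        exact h3 x fun k hk => hx k (by omega)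
  obtain ⟨R, hR, h1, -, h2⟩ := key n
  have : {x : ℕ → unitInterval | ∀ k < n, x k = g k (x (k + 1))} = range R := by
    ext x
    constructor
    · intro hx; exact ⟨x, h2 x hx⟩
    · rintro ⟨y, rfl⟩; exact h1 y
  rw [this]
  exact isPreconnected_range hR

theorem preconnectedSpace_IL (hg : ∀ k, Continuous (g k)) : PreconnectedSpace (IL g) := by
  have hcl : ∀ n : ℕ, IsClosed {x : ℕ → unitInterval | ∀ k < n, x k = g k (x (k + 1))} := by
    intro n
    have : {x : ℕ → unitInterval | ∀ k < n, x k = g k (x (k + 1))} =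
        ⋂ k, ⋂ (_ : k < n), {x : ℕ → unitInterval | x k = g k (x (k + 1))} := by
      ext x; simp
    rw [this]
    exact isClosed_iInter fun k => isClosed_iInter fun _ =>
      isClosed_eq (continuous_apply k) ((hg k).comp (continuous_apply (k + 1)))
  have hE : (⋂ n : ℕ, {x : ℕ → unitInterval | ∀ k < n, x k = g k (x (k + 1))}) =
      {x : ℕ → unitInterval | ∀ k, x k = g k (x (k + 1))} := by
    ext x
    simp only [mem_iInter, mem_ofPred_eq]
    exact ⟨fun h k => h (k + 1) k (Nat.lt_succ_self k), fun h _ k _ => h k⟩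
  have : IsPreconnected {x : ℕ → unitInterval | ∀ k, x k = g k (x (k + 1))} := by
    refine isPreconnected_of_forall_pair fun x hx y hy => ?_
    obtain ⟨z, hz1, hz2⟩ := nested
      (A := fun n : ℕ => {x : ℕ → unitInterval | ∀ k < n, x k = g k (x (k + 1))})
      (B := fun _ => {y}) hcl (fun _ => isClosed_singleton)
      (fun m n hmn w hw k hk => hw k (lt_of_lt_of_le hk hmn)) (fun _ _ _ => le_rfl) (x := x)
      (fun n => ⟨_, isPreconnected_level hg n, fun k _ => hx k, Subset.rfl, y,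
        fun k _ => hy k, rfl⟩)
    rw [hE] at hz1
    have hzy : z = y := mem_iInter.mp hz2 0
    exact ⟨_, connectedComponentIn_subset _ x, mem_connectedComponentIn hx, hzy ▸ hz1,
      isPreconnected_connectedComponentIn⟩
  exact isPreconnected_iff_preconnectedSpace.mp this

theorem uIcc_subset_of_preconnected {C : Set unitInterval} (hC : IsPreconnected C)
    {a b w : unitInterval} (ha : a ∈ C) (hb : b ∈ C) (hw : (w : ℝ) ∈ uIcc (a : ℝ) b) : w ∈ C := by
  have : (w : ℝ) ∈ (fun u : unitInterval => (u : ℝ)) '' C := by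
    rcases mem_uIcc.mp hw with h' | h'
    · exact hC.intermediate_value ha hb continuous_subtype_val.continuousOn h'
    · exact hC.intermediate_value hb ha continuous_subtype_val.continuousOn h'
  obtain ⟨u, hu, hu'⟩ := this
  rwa [← Subtype.ext hu']

/-- A uniform limit of confluent maps of the factor arcs is confluent; only surjectivity of the
bonding maps is used. -/
theorem conf_of_factor (hg : ∀ k, Continuous (g k)) (hs : ∀ k, Function.Surjective (g k))
    {φ : IL g → unitInterval} (hφ : Continuous φ)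
    (H : ∀ ε > 0, ∀ n : ℕ, ∃ i, n ≤ i ∧ ∃ F : unitInterval → unitInterval, Conf F ∧
      ∀ x : IL g, |(F (x.1 i) : ℝ) - φ x| ≤ ε) : Conf φ := by
  have := compactSpace_IL hg
  have := preconnectedSpace_IL hg
  intro x y
  have hφ' : Continuous fun w => (φ w : ℝ) := continuous_subtype_val.comp hφ
  have hanti : ∀ m n : ℕ, m ≤ n → 1 / ((n : ℝ) + 1) ≤ 1 / ((m : ℝ) + 1) := fun m n h =>
    Nat.one_div_le_one_div h
  obtain ⟨z, hz1, hz2⟩ := nested'
    (A := fun n : ℕ => {w | min (φ x : ℝ) y - 1 / ((n : ℝ) + 1) ≤ φ w ∧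
      (φ w : ℝ) ≤ max (φ x : ℝ) y + 1 / ((n : ℝ) + 1)})
    (B := fun n : ℕ => {w | |(φ w : ℝ) - y| ≤ 1 / ((n : ℝ) + 1)})
    (D := fun n : ℕ => {w : IL g | w.1 n = x.1 n})
    (fun n => (isClosed_le continuous_const hφ').inter (isClosed_le hφ' continuous_const))
    (fun n => isClosed_le (hφ'.sub continuous_const).abs continuous_const)
    (fun n => isClosed_eq (continuous_proj n) continuous_const)
    (fun m n h w hw => ⟨by linarith [hw.1, hanti m n h], by linarith [hw.2, hanti m n h]⟩)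
    (fun m n h w hw => le_trans hw (hanti m n h))
    (fun m n h w hw => proj_eq_of_le h hw) (x := x)
    (fun w hw => Subtype.ext (funext fun k => mem_iInter.mp hw k))
    (by
      intro n
      have hpos : 0 < 1 / ((n : ℝ) + 1) := Nat.one_div_pos_of_nat
      obtain ⟨i, hi, F, hF, hFφ⟩ := H (1 / ((n : ℝ) + 1) / 2) (half_pos hpos) n
      obtain ⟨C', hC', hxC', hCI, z', hz', hzy⟩ := hF (x.1 i) y
      obtain ⟨C, hC, hCC, ⟨u, huC, hu⟩, v, hvC, hv⟩ := weak_conf'
        (p := fun w : IL g => (w.1 i : ℝ)) (continuous_subtype_val.comp (continuous_proj i))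
        (a := x.1 i) (b := z') ⟨x, rfl⟩ (by
          obtain ⟨w, hw⟩ := proj_surj i g hs z'
          exact ⟨w, by rw [hw]⟩)
      refine ⟨C, hC, ⟨u, huC, proj_eq_of_le hi (Subtype.ext hu)⟩, ?_, v, hvC, ?_⟩
      · intro w hw
        have a1 := hCI _ (uIcc_subset_of_preconnected hC' hxC' hz' (hCC w hw))
        have a2 := abs_le.mp (hFφ w)
        have a3 := abs_le.mp (hFφ x)
        have a4 := min_le_left (φ x : ℝ) y
        have a5 := min_le_right (φ x : ℝ) y
        have a6 := le_max_left (φ x : ℝ) y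
        have a7 := le_max_right (φ x : ℝ) y
        rcases mem_uIcc.mp a1 with h | h
        · exact ⟨by linarith [h.1, a2.2, a3.1], by linarith [h.2, a2.1]⟩
        · exact ⟨by linarith [h.1, a2.2], by linarith [h.2, a2.1, a3.2]⟩
      · have a2 := hFφ v
        rw [show v.1 i = z' from Subtype.ext hv, hzy, abs_sub_comm] at a2
        exact a2.trans (by linarith))
  have hsmall : ∀ u v : ℝ, (∀ n : ℕ, u ≤ v + 1 / ((n : ℝ) + 1)) → u ≤ v := by
    intro u v h
    apply le_of_forall_pos_le_add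
    intro ε hε
    obtain ⟨n, hn⟩ := exists_nat_one_div_lt hε
    linarith [h n]
  have hxA : x ∈ ⋂ n : ℕ, {w | min (φ x : ℝ) y - 1 / ((n : ℝ) + 1) ≤ φ w ∧
      (φ w : ℝ) ≤ max (φ x : ℝ) y + 1 / ((n : ℝ) + 1)} :=
    connectedComponentIn_nonempty_iff.mp ⟨z, hz1⟩
  refine ⟨_, isPreconnected_connectedComponentIn, mem_connectedComponentIn hxA, ?_, z, hz1, ?_⟩
  · intro w hw
    have := mem_iInter.mp (connectedComponentIn_subset _ _ hw)
    exact ⟨hsmall _ _ fun n => by linarith [(this n).1], hsmall _ _ fun n => (this n).2⟩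
  · have := mem_iInter.mp hz2
    have h0 : |(φ z : ℝ) - y| ≤ 0 := hsmall _ _ fun n => by simpa using this n
    exact Subtype.ext (sub_eq_zero.mp (abs_nonpos_iff.mp h0))

theorem conf_of_approximable' (hg : ∀ k, Continuous (g k)) (hs : ∀ k, Function.Surjective (g k))
    {φ : IL g → unitInterval} (hφ : Continuous φ)
    (H : ∃ F : ℕ → unitInterval → unitInterval, (∀ i, Continuous (F i) ∧ IsOpenMap (F i)) ∧
      TendstoUniformly (fun (i : ℕ) (x : IL g) => F i (x.1 i)) φ atTop) : Conf φ := by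
  obtain ⟨F, hF, hlim⟩ := H
  refine conf_of_factor hg hs hφ fun ε hε n => ?_
  obtain ⟨i, hi, hin⟩ :=
    ((Metric.tendstoUniformly_iff.mp hlim ε hε).and (eventually_ge_atTop n)).exists
  refine ⟨i, hin, F i, conf_of_open (hF i).1 (hF i).2, fun x => ?_⟩
  have := hi x
  rw [Subtype.dist_eq, Real.dist_eq, abs_sub_comm] at this
  exact this.le

theorem approximable_of_conf' (hg : ∀ k, Continuous (g k)) (hs : ∀ k, Function.Surjective (g k))
    {φ : IL g → unitInterval} (hφ : Continuous φ) (H : Conf φ) :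
    ∃ F : ℕ → unitInterval → unitInterval, (∀ i, Continuous (F i) ∧ IsOpenMap (F i)) ∧
      TendstoUniformly (fun (i : ℕ) (x : IL g) => F i (x.1 i)) φ atTop := by
  classical
  set Good : ℕ → ℕ → Prop := fun i n => ∃ F : unitInterval → unitInterval,
    Continuous F ∧ IsOpenMap F ∧ ∀ x : IL g, |(F (x.1 i) : ℝ) - φ x| ≤ 1 / ((n : ℝ) + 1)
    with hGood
  have h0 : ∀ i, Good i 0 := by
    intro i
    refine ⟨id, continuous_id, IsOpenMap.id, fun x => ?_⟩
    have a1 := (x.1 i).2
    have a2 := (φ x).2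
    simp only [id, Nat.cast_zero, zero_add, div_one]
    rw [abs_le]
    constructor <;> linarith [a1.1, a1.2, a2.1, a2.2]
  have h1 : ∀ n, ∃ N, ∀ i, N ≤ i → Good i n := by
    intro n
    have hpos : 0 < 1 / ((n : ℝ) + 1) := Nat.one_div_pos_of_nat
    have hle : 1 / ((n : ℝ) + 1) ≤ 1 := by
      simpa using Nat.one_div_le_one_div (α := ℝ) (Nat.zero_le n)
    obtain ⟨N, hN⟩ := almost_factor hg (continuous_subtype_val.comp hφ)
      (e := 1 / ((n : ℝ) + 1) / 13) (by positivity)
    refine ⟨N, fun i hi => ?_⟩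
    obtain ⟨δ, hδ, hU⟩ := hN i hi
    obtain ⟨F, a1, a2, a3⟩ := approx_open (p := fun x : IL g => x.1 i)
      (φ := fun x => (φ x : ℝ)) (continuous_proj i)
      (proj_surj i g hs) (fun x => (φ x).2)
      (e := 1 / ((n : ℝ) + 1) / 13) (by positivity) (by linarith) hδ hU H.climb.1 H.climb.2
    exact ⟨F, a1, a2, fun x => (a3 x).trans (by linarith)⟩
  have h2 : ∀ i, Good i (Nat.findGreatest (Good i) i) := fun i =>
    Nat.findGreatest_spec (Nat.zero_le i) (h0 i)
  choose F hFc hFo hF using h2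
  refine ⟨F, fun i => ⟨hFc i, hFo i⟩, ?_⟩
  rw [Metric.tendstoUniformly_iff]
  intro ε hε
  obtain ⟨n, hn⟩ := exists_nat_one_div_lt hε
  obtain ⟨N, hN⟩ := h1 n
  filter_upwards [eventually_ge_atTop (max N n)] with i hi x
  have a1 : n ≤ Nat.findGreatest (Good i) i :=
    Nat.le_findGreatest (le_of_max_le_right hi) (hN i (le_of_max_le_left hi))
  rw [Subtype.dist_eq, Real.dist_eq, abs_sub_comm]
  exact ((hF i x).trans (Nat.one_div_le_one_div a1)).trans_lt hn

theorem conf_id : Conf (id : unitInterval → unitInterval) := fun x y =>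
  ⟨_, isPreconnected_preimage_uIcc x.2 y.2, left_mem_uIcc, fun _ hw => hw, y, right_mem_uIcc, rfl⟩

theorem Conf.comp {X : Type*} [TopologicalSpace X] {G : X → unitInterval}
    {F : unitInterval → unitInterval} (hF : Conf F) (hG : Conf G) : Conf (F ∘ G) := by
  intro x y
  obtain ⟨C', hC', hxC', hCI, z', hz', hzy⟩ := hF (G x) y
  obtain ⟨C, hC, hxC, hCC, z, hz, hzz⟩ := hG x z'
  refine ⟨C, hC, hxC, fun w hw => hCI _ (uIcc_subset_of_preconnected hC' hxC' hz' (hCC w hw)),
    z, hz, ?_⟩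
  show F (G z) = y
  rw [hzz, hzy]

theorem Conf.surj {X : Type*} [TopologicalSpace X] [Nonempty X] {G : X → unitInterval}
    (hG : Conf G) : Function.Surjective G := by
  intro y
  obtain ⟨-, -, -, -, z, -, hz⟩ := hG (Classical.arbitrary X) y
  exact ⟨z, hz⟩

/-- confluent bonding maps give confluent projections -/
theorem conf_proj (hh : ∀ k, Continuous (h k)) (hc : ∀ k, Conf (h k)) (j : ℕ) :
    Conf fun u : IL h => u.1 j := by
  have key : ∀ d : ℕ, ∃ F : unitInterval → unitInterval, Conf F ∧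
      ∀ x : IL h, F (x.1 (j + d)) = x.1 j := by
    intro d
    induction d with
    | zero => exact ⟨id, conf_id, fun _ => rfl⟩
    | succ d ih =>
      obtain ⟨F, hF, hF'⟩ := ih
      refine ⟨F ∘ h (j + d), hF.comp (hc _), fun x => ?_⟩
      show F (h (j + d) (x.1 (j + d + 1))) = x.1 j
      rw [← x.2 (j + d), hF']
  refine conf_of_factor hh (fun k => (hc k).surj) (continuous_proj j) fun ε hε n => ?_
  obtain ⟨F, hF, hF'⟩ := key n
  exact ⟨j + n, Nat.le_add_left n j, F, hF, fun x => by rw [hF', sub_self, abs_zero]; exact hε.le⟩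

theorem conf_of_confluent' {X : Type*} [TopologicalSpace X] {f : X → IL h} {j : ℕ}
    (hq : Conf fun u : IL h => u.1 j)
    (H : ∀ K : Set (IL h), IsClosed K → IsConnected K →
      ∀ x, f x ∈ K → f '' connectedComponentIn (f ⁻¹' K) x = K) :
    Conf fun x => (f x).1 j := by
  intro x y
  obtain ⟨C, hC, hxC, hCI, z, hz, hzy⟩ := hq (f x) y
  have hcl : IsConnected (closure C) := ⟨⟨f x, subset_closure hxC⟩, hC.closure⟩
  have hK := H (closure C) isClosed_closure hcl x (subset_closure hxC)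
  have hzK : z ∈ closure C := subset_closure hz
  rw [← hK] at hzK
  obtain ⟨w, hw, hwz⟩ := hzK
  refine ⟨_, isPreconnected_connectedComponentIn,
    mem_connectedComponentIn (show x ∈ f ⁻¹' closure C from subset_closure hxC), ?_, w, hw, ?_⟩
  · intro v hv
    have h1 : f v ∈ closure C := connectedComponentIn_subset (f ⁻¹' closure C) x hv
    have h2 : IsClosed {u : IL h | (u.1 j : ℝ) ∈ uIcc ((f x).1 j : ℝ) y} :=
      isClosed_Icc.preimage (continuous_subtype_val.comp (continuous_proj j))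
    exact closure_minimal hCI h2 h1
  · simp only [hwz]; exact hzy

theorem conf_of_comp_eq {X : Type*} [TopologicalSpace X] {G : X → unitInterval}
    (H : ∀ K : Set unitInterval, IsClosed K → IsConnected K →
      ∀ x, G x ∈ K → G '' connectedComponentIn (G ⁻¹' K) x = K) : Conf G := by
  intro x y
  have hK : IsClosed ((↑) ⁻¹' (uIcc (G x : ℝ) y) : Set unitInterval) :=
    isClosed_Icc.preimage continuous_subtype_val
  have hx : G x ∈ ((↑) ⁻¹' (uIcc (G x : ℝ) y) : Set unitInterval) := left_mem_uIcc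
  have hy : y ∈ ((↑) ⁻¹' (uIcc (G x : ℝ) y) : Set unitInterval) := right_mem_uIcc
  rw [← H _ hK ⟨⟨_, hx⟩, isPreconnected_preimage_uIcc (G x).2 y.2⟩ x hx] at hy
  obtain ⟨z, hz, hzy⟩ := hy
  exact ⟨_, isPreconnected_connectedComponentIn, mem_connectedComponentIn hx,
    fun w hw => connectedComponentIn_subset (G ⁻¹' (Subtype.val ⁻¹' (uIcc (G x : ℝ) y))) x hw,
    z, hz, hzy⟩

theorem Conf.comp_eq {X : Type*} [TopologicalSpace X] {G : X → unitInterval} (hG : Conf G)
    (K : Set unitInterval) (hK : IsConnected K) (x : X) (hx : G x ∈ K) :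
    G '' connectedComponentIn (G ⁻¹' K) x = K := by
  apply Subset.antisymm
  · rintro _ ⟨w, hw, rfl⟩
    exact connectedComponentIn_subset (G ⁻¹' K) x hw
  intro y hy
  obtain ⟨C, hC, hxC, hCI, z, hz, hzy⟩ := hG x y
  exact ⟨z, hC.subset_connectedComponentIn hxC
    (fun w hw => uIcc_subset_of_preconnected hK.isPreconnected hx hy (hCI w hw)) hz, hzy⟩

theorem conf_bond {X : Type*} [TopologicalSpace X] [Nonempty X] {f : X → IL h}
    (hf : Continuous f) (H : ∀ j, Conf fun x => (f x).1 j) (j : ℕ) : Conf (h j) := by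
  intro t y
  obtain ⟨x, hx⟩ := (H (j + 1)).surj t
  obtain ⟨C, hC, hxC, hCI, z, hz, hzy⟩ := H j x y
  have hx' : (f x).1 (j + 1) = t := hx
  refine ⟨(fun w => (f w).1 (j + 1)) '' C,
    hC.image _ ((continuous_proj (j + 1)).comp hf).continuousOn, ⟨x, hxC, hx⟩, ?_,
    (f z).1 (j + 1), ⟨z, hz, rfl⟩, ?_⟩
  · rintro _ ⟨w, hw, rfl⟩
    have := hCI w hw
    simp only at this ⊢
    rw [← (f w).2 j, ← hx', ← (f x).2 j]
    exact this
  · rw [← (f z).2 j]; exact hzy

theorem surj_of_conf (hg : ∀ k, Continuous (g k)) (hh : ∀ k, Continuous (h k))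
    [Nonempty (IL g)] {f : IL g → IL h} (hf : Continuous f)
    (H : ∀ j, Conf fun x => (f x).1 j) : Function.Surjective f := by
  have := compactSpace_IL hg
  intro y
  by_contra hy
  obtain ⟨N, hN⟩ := exists_proj_notMem hh (isCompact_range hf).isClosed hy
  obtain ⟨x, hx⟩ := (H N).surj (y.1 N)
  exact hN N le_rfl ⟨f x, ⟨x, rfl⟩, hx⟩

end Pool.Agent.P.MP_18ddbc_gt
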